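import Pool.Agent.Run7.h573.FK.NotKR
import Pool.Agent.Run7.h688.FK.P1
import Pool.Agent.Run7.h719.FK.P5

set_option autoImplicit false

/-!
# A free Abelian topological group which is a `k_ℝ`-space and has a closed subgroup which is not

`X = (βω × ω₁) ∪ (ω × {ω₁})` as a subspace of `βω × (ω₁ + 1)`.  Every real function on a finite power of `X` which
is continuous on compact sets factors through a retraction to a compact set `βω × [0, α]`, `α < ω₁`; hence `A(X)` is
a `k_ℝ`-space, since `A(C)` is one for compact `C`.  In the closed subgroup generated by `ω × {ω₁}` all compact sets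
are finite, but `0` is not isolated.
-/

namespace Pool.Agent.Results.MP_ebea7e_gt.FreeGroupClosedSubgroupNotKR

open Topology Filter Set

/-- `k_ℝ`-spaces: real functions which are continuous on every compact set are continuous -/
def IsKR (X : Type) [TopologicalSpace X] : Prop :=
  ∀ f : X → ℝ, (∀ K : Set X, IsCompact K → ContinuousOn f K) → Continuous f

/-- `t` is the topology of the free Abelian topological group `A(X)`: the finest group topology on the free Abelian
group on `X` which induces the topology of `X` (in Mathlib's order the finest topology is the least) -/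
def IsFreeAbelianTopology (X : Type) [TopologicalSpace X] (t : TopologicalSpace (FreeAbelianGroup X)) : Prop :=
  IsLeast {s : TopologicalSpace (FreeAbelianGroup X) |
    @IsTopologicalAddGroup _ s _ ∧ @IsEmbedding _ _ _ s (FreeAbelianGroup.of : X → FreeAbelianGroup X)} t

section Space

open Pool.Agent.Run7.h573.FK

variable {W : Type} [LinearOrder W] [OrderTop W] [TopologicalSpace W] [OrderTopology W] [CompactSpace W]

theorem t35 : T35Space (XX W) := inferInstance

theorem isOpen_XX : IsOpen {x : Ultrafilter ℕ × W | x.2 < ⊤ ∨ ∃ n : ℕ, x.1 = pure n} := by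
  have h1 : IsOpen {x : Ultrafilter ℕ × W | x.2 < ⊤} := isOpen_Iio.preimage continuous_snd
  have h2 : {x : Ultrafilter ℕ × W | ∃ n : ℕ, x.1 = pure n} = ⋃ n : ℕ, {x | ({n} : Set ℕ) ∈ x.1} := by
    ext x
    simp only [mem_setOf_eq, mem_iUnion]
    refine exists_congr fun n => ?_
    constructor
    · intro h
      rw [h, Ultrafilter.mem_pure]
      exact mem_singleton n
    · intro h
      refine (Ultrafilter.eq_of_le ?_)
      intro s hs
      rw [Ultrafilter.mem_coe, Ultrafilter.mem_pure] at hs
      exact Filter.mem_of_superset h (singleton_subset_iff.2 hs)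
  have h3 : IsOpen {x : Ultrafilter ℕ × W | ∃ n : ℕ, x.1 = pure n} := by
    rw [h2]
    exact isOpen_iUnion fun n => (ultrafilter_isOpen_basic {n}).preimage continuous_fst
  exact h1.union h3

theorem loc : LocallyCompactSpace (XX W) := isOpen_XX.locallyCompactSpace

theorem closed_iot : IsClosed (range (iot W)) := by
  have h1 : range (iot W) = {x : XX W | x.1.2 = ⊤} := by
    ext x
    constructor
    · rintro ⟨n, rfl⟩
      rfl
    · intro hx
      rcases x.2 with h | ⟨n, hn⟩
      · exact absurd hx h.ne
      · refine ⟨n, ?_⟩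
        apply Subtype.ext
        apply Prod.ext
        · exact hn.symm
        · exact hx.symm
  rw [h1]
  exact isClosed_eq (continuous_snd.comp continuous_subtype_val) continuous_const

end Space

/-- There is a locally compact Tychonoff space `X` such that `A(X)` is a (Hausdorff) `k_ℝ`-group with a closed
subgroup which is not a `k_ℝ`-space. -/
theorem result : ∃ (X : Type) (_ : TopologicalSpace X) (t : TopologicalSpace (FreeAbelianGroup X)),
    T35Space X ∧ LocallyCompactSpace X ∧ IsFreeAbelianTopology X t ∧ @T2Space _ t ∧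
    @IsKR (FreeAbelianGroup X) t ∧
    ∃ H : AddSubgroup (FreeAbelianGroup X), @IsClosed _ t (H : Set (FreeAbelianGroup X)) ∧
      ¬ @IsKR H (@instTopologicalSpaceSubtype _ (fun a => a ∈ H) t) := by
  obtain ⟨W, _, _, _, _, _, hW⟩ := Pool.Agent.Run7.h719.FK.t_P5
  haveI : T35Space (Pool.Agent.Run7.h573.FK.XX W) := t35
  exact ⟨Pool.Agent.Run7.h573.FK.XX W, inferInstance, Pool.Agent.Run7.h573.FK.freeTop _, inferInstance, loc,
    Pool.Agent.Run7.h573.FK.freeTop_least _, Pool.Agent.Run7.h573.FK.freeTop_t2,
    Pool.Agent.Run7.h573.FK.kr hW Pool.Agent.Run7.h688.FK.t_P1,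
    (FreeAbelianGroup.map (Pool.Agent.Run7.h573.FK.iot W)).range,
    Pool.Agent.Run7.h573.FK.closed_range _ closed_iot,
    Pool.Agent.Run7.h573.FK.not_kr hW Pool.Agent.Run7.h719.FK.t_P3 (Pool.Agent.Run7.h874.FK.t_P4 W hW)⟩

end Pool.Agent.Results.MP_ebea7e_gt.FreeGroupClosedSubgroupNotKR
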